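import Mathlib
import Pool.Agent.Helper33_ct.Thms
import Pool.Agent.Helper33_ct.Family

/-!
# Rational motivic cohomology of products with abelian varieties with dominating slopes

Let `K i` (`i` in a finite set) be CM fields, and let `π i` be Weil numbers for `q = p ^ a` in `K i`,
`π i * conj (π i) = q`. We suppose:

* each `π i` is of dominant type (the new case), of pair type or of flip type. Dominant type: let
  `w τ = 2 v (τ (π i)) - a` be the normalised valuations, `τ` running through the embeddings of `K i`
  in the algebraic closure of the `p`-adic numbers; there is `τ₀` with `w τ₀ ≠ 0` such that the
  sum of all `|w τ|` is less than `4 |w τ₀|`, or it is equal to `4 |w τ₀|` and `π i` is not of norm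
  type: there is no subfield `E` of `K i`, different from `K i` and not totally real, such that for
  every embedding of `E` the sum of the `w τ` over its extensions `τ` to `K i` is zero. There is no
  condition on the Galois group, the degree and the ramification of `K i`. For instance
  (commutative endomorphism algebra) the slopes are `0` and `1` once and `1/2` otherwise, or they are
  `0` and `1` twice, `1/2` otherwise, and `π i` is not of norm type;
* for `i ≠ j` embeddings of `K i` and `K j` are cross flipped: some automorphism of the complex
  numbers fixes one and conjugates the other (this is no condition if there is only one field).

Let `f i` be monic polynomials whose complex roots are conjugates of `π i`, for instance the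
characteristic polynomials of Frobenius of the abelian varieties in the isogeny classes of the `π i`
over the field with `q` elements. Let `A` be an abelian variety over the field with `Q = q ^ s`
elements which is isogenous to a product of powers of abelian varieties coming from the field with
`q` elements, with characteristic polynomials `f i`, and let `Z` be **any** smooth projective variety
over the field with `Q` elements such that

* the eigenvalues `ρ` of Frobenius on the cohomology of `Z` and their conjugates are independent of
  the fields `K i` (`Independent`): for each embedding `ψ` of `K i` some automorphism of `ℂ` which
  fixes a power of `ρ` is the complex conjugation on `ψ (K i)`: for instance, if a power of `ρ` lies in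
  a field linearly disjoint from the normal closures of the `K i`, or in a totally real field (all
  varieties `Z` with supersingular cohomology, cellular varieties, ...);
* homologically trivial self-correspondences of degree zero of `A × Z` are nilpotent, for instance
  the motive of `Z` is finite-dimensional in the sense of Kimura and O'Sullivan. This is known for
  all varieties dominated by products of curves, and for their products with `A`.

Then there are finitely many products `D j` of `c j` divisors on `A` such that for every `m` the
rational motivic cohomology (the Adams weights of the `K`-groups `K_m`) of `A × Z` satisfies the
Kunneth formula `H^(2 n - m)(A × Z, ℚ(n)) = ⨁ D j × H^(2 (n - c j) - m)(Z, ℚ(n - c j))` for all `n`;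
and **these groups vanish for `A × Z` in all weights `≤ n` if and only if they vanish for `Z` in all
weights `≤ n`.** So the statement `P^n` of the question, in weights at most `n`, for `A × Z` is
equivalent to the one for `Z`. For instance it holds for all `n` if `Z` is a point or a curve with
this property (Quillen, Harder), for `A` of any dimension. (`T` is any theory with rational
coefficients on which correspondences act and such that the Frobenius endomorphism of `A × Z` acts
on the part of weight `n` as multiplication by `Q ^ n`.)

The framework (`TheoryData`, `IsChow`, `IsWeil`, `MotivicData`, `IsMotivic`) is the one of the
starting files of helper492 and helper1: the Chow groups `C` with rational coefficients, their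
pull-backs, push-forwards and products, a Weil cohomology theory `H` with coefficients in an
algebraically closed field, on a class `𝒱` of smooth proper varieties over `k`, and theories `T` on
which correspondences act.
-/

set_option autoImplicit false

namespace Pool.Agent.Results.MP_de59b4_ag.DominantTimesVariety

open NumberField Polynomial Pool.Agent.Y1.CT Pool.Agent.H194R3.Tate Pool.Agent.Helper33Dom

theorem result (p : ℕ) [Fact p.Prime] (a : ℕ) (ha : 0 < a) {I : Type} [Fintype I]
    (K : I → Type) [∀ i, Field (K i)] [∀ i, NumberField (K i)] [∀ i, IsCMField (K i)]
    (π : ∀ i, K i) (hweil : ∀ i, π i * IsCMField.complexConj (K i) (π i) = (p : K i) ^ a)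
    (hπ : ∀ i, DominantType p a (π i) ∨ PairType p a (π i) ∨ FlipType p a (π i))
    (hcross : ∀ i j, i ≠ j → ∀ (φ : K i →+* ℂ) (ψ : K j →+* ℂ), CrossFlipped φ ψ)
    (f : I → ℤ[X]) (hf : ∀ i, IsPolyOf (π i) (f i)) : MotivicTimes K (p ^ a) f :=
  Pool.Agent.Helper33Ct.motivicTimes (Nat.one_lt_pow ha.ne' (Fact.out : p.Prime).one_lt)
    (Pool.Agent.Helper33Ct.noRel_independent ha π hweil hπ hcross f hf)

end Pool.Agent.Results.MP_de59b4_ag.DominantTimesVariety
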