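import Pool.Agent.H547_n.Nil
import Pool.Agent.H547_n.Inv
import Pool.Agent.H547_n.Odd

/-!
# Products in the higher `K`-theory of products of Fermat varieties over finite fields

Let `p` be a prime number, `m` prime to `p`, and let `𝒞` be the tensor category of the (Voevodsky)
motives over an algebraic closure of the field with `p` elements, with coefficients in a field `K` of
characteristic zero which contains all roots of unity. For a smooth projective variety `X` let `h(X)(n)`
be the twist of its Chow motive; then the morphisms `𝟙 ⟶ h(X)(n)[-j]` are the elements of the motivic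
cohomology group `H ^ (2 n - j) (X, K(n))`, a direct summand of `K_j(X) ⊗ K`. Parshin's conjecture says
that these groups vanish for `j > 0`. We consider the varieties `X` of *Fermat type* of level `m`, of all
dimensions: those which are dominated by a product of any number of Fermat varieties of degrees dividing
`m`, of any dimensions, and of curves `y ^ q - y = x ^ d`, `q` a power of `p`, `d` a divisor of `m`.

**Theorem.** Let `c` be the number of the classes of linked nonzero residues modulo `m`. It is at most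
`2 ^ r`, where `r` is the number of the odd prime divisors of `m`, and at most `2 ^ r - 1` if `m` is odd;
so it is at most one if `m` is a prime power.

1. The external product of any `n ≥ c` classes on varieties of Fermat type of level `m` is zero, if each
of them is either an element of a group `H ^ i (X, n)` with `i ≠ 2 n` or a numerically trivial cycle. So
for each `X` of this type the ideal `J` of the ring `K_*(X) ⊗ ℚ`, generated by all elements of positive
degree and all numerically trivial elements of `K_0(X) ⊗ ℚ`, is nilpotent: `J ^ c = 0`. Parshin's and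
Beilinson's conjectures for `X` say that `J = 0`.

2. The product of a class of positive degree with any class vanishes, if they belong to motives of rank
one `N(s)`, `N(s')` for Tate characters `s`, `s'` with the same parities.

3. For every `j > 0`, there are no classes of degree `j` on all the varieties of this type (infinitely
many, of all dimensions) if and only if there are none on at most `2 ^ (c - 1) - 1` motives of rank one,
which do not depend on `j`.

4. If `c ≤ 1`, for instance if `m` is a prime power, Parshin's conjecture holds for all the varieties of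
Fermat type of level `m`.

The bounds do not depend on the dimensions, on `p` and on the exponents of the primes in `m`. All this
holds for varieties over finite fields as well, since `K_*(X) ⊗ ℚ` injects into the `K`-theory of the
variety over the algebraic closure.

*The hypotheses in Lean.* The structure `LineSystem` lists the known facts on the motives `N(s)`. They
are direct factors of motives of products of curves, so that they are finite-dimensional in the sense of
Kimura, and `N(s)` is isomorphic to `𝟙` as soon as it has a cycle with a nonzero cohomology class. This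
is known for pairs (Tate's theorem for products of two curves), for the characters of Fermat surfaces
(Tate, Shioda, Katsura) and for the standard characters (the cycles of Aoki and Shioda). The structure
`Shifts` contains the fact that the motivic cohomology of a point vanishes in negative degrees. The
motive of a Fermat variety of degree `m` is a direct sum of twists of `𝟙` and of the lines `N(s)`, and of
lines of odd weight (Weil, Katz, Shioda, Katsura). The classes on a line on which no power of the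
Frobenius is the identity vanish: they are defined over a finite field, and the Frobenius acts on them
trivially (Soulé). So the motives `h(X)(n)` of the varieties of Fermat type have the property `OfType`.
-/

set_option autoImplicit false

namespace Pool.Agent.Results.MP_de59b4_ag.HigherProducts

open CategoryTheory MonoidalCategory Finset Pool.Agent.H547_d Pool.Agent.H547_n

universe v u

section defs

/-- Linked residues: two nonzero residues `a`, `b` modulo `m` such that the (additive) orders of `a`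
and `b` have the same prime divisors, or both orders are even, or, for every unit `t` modulo `m`,
the representatives in `{1, ..., m - 1}` of the residues `p ^ j * t * a`, `0 ≤ j < f`, `f` being the
order of `p` modulo `m`, have the same sum as those of the residues `p ^ j * t * b`. -/
def Linked (p m : ℕ) (a b : ZMod m) : Prop :=
  a ≠ 0 ∧ b ≠ 0 ∧
    ((addOrderOf a).primeFactors = (addOrderOf b).primeFactors ∨
      (Even (addOrderOf a) ∧ Even (addOrderOf b)) ∨
      ∀ t : (ZMod m)ˣ,
        ∑ j ∈ Finset.range (orderOf (p : ZMod m)), ((p : ZMod m) ^ j * ((t : ZMod m) * a)).val =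
          ∑ j ∈ Finset.range (orderOf (p : ZMod m)), ((p : ZMod m) ^ j * ((t : ZMod m) * b)).val)

/-- The number of the classes of nonzero residues modulo `m` for the equivalence relation generated by
the links. -/
noncomputable def linkClasses (p m : ℕ) : ℕ := Set.ncard {C : Quot (Linked p m) | C ≠ Quot.mk _ 0}

open scoped Classical in
/-- The number of the elements of `s` in each class of linked residues has the same parity as the
number of those of `s'`. -/
def SameParities (p m : ℕ) (s s' : Multiset (ZMod m)) : Prop :=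
  ∀ C : Quot (Linked p m),
    (Even (s.countP fun a => Quot.mk (Linked p m) a = C) ↔
      Even (s'.countP fun a => Quot.mk (Linked p m) a = C))

/-- The shifts of the unit object `𝟙` of the tensor category `𝒞` of the motives over an algebraic closure
of the field with `p` elements: `T j = 𝟙[-j]`. The fields of the structure are known theorems. -/
structure Shifts (𝒞 : Type u) [Category.{v} 𝒞] [Preadditive 𝒞] [MonoidalCategory 𝒞] where
  /-- the shifts of the unit object -/
  T : ℕ → 𝒞
  zero : Nonempty (T 0 ≅ 𝟙_ 𝒞)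
  add : ∀ i j : ℕ, Nonempty (T (i + j) ≅ T i ⊗ T j)
  /-- The motivic cohomology of a point in negative degrees. -/
  point : ∀ j : ℕ, 0 < j → ∀ z : 𝟙_ 𝒞 ⟶ T j, z = 0

variable {𝒞 : Type u} [Category.{v} 𝒞] [Preadditive 𝒞] [MonoidalCategory 𝒞] {p : ℕ}

/-- The motive `M` is of Fermat type and level `m`: it is a direct summand of a finite direct sum of
motives each of which is the line `N m s` of a Tate character `s`, or has no motivic cohomology classes
at all. A class of degree `j` on `M` is a morphism `𝟙 ⟶ M[-j]`. -/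
def OfType (L : LineSystem p 𝒞) (S : Shifts 𝒞) (m : ℕ) (M : 𝒞) : Prop :=
  ∃ (ι : Type) (_ : Fintype ι) (A : ι → 𝒞) (π : ∀ i, M ⟶ A i) (κ : ∀ i, A i ⟶ M),
    𝟙 M = ∑ i, π i ≫ κ i ∧
      ∀ i, (∃ s, IsGaussTate p m s ∧ A i = L.N m s) ∨ ∀ (j : ℕ) (z : 𝟙_ 𝒞 ⟶ A i ⊗ S.T j), z = 0

/-- A class `z` of degree `j` on the motive `M`: for `M = h(X)(n)` an element of the motivic cohomology
group `H ^ (2 n - j) (X, n)`. -/
structure HigherClass (S : Shifts 𝒞) where
  M : 𝒞
  j : ℕ
  z : 𝟙_ 𝒞 ⟶ M ⊗ S.T j

/-- The class, as a morphism from `𝟙` to `M[-j]`. -/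
def HigherClass.toCycle {S : Shifts 𝒞} (a : HigherClass S) : CycleOn 𝒞 := ⟨a.M ⊗ S.T a.j, a.z⟩

/-- There are no classes of degree `j` on the motive `M`. -/
def NoClasses (S : Shifts 𝒞) (M : 𝒞) (j : ℕ) : Prop := ∀ z : 𝟙_ 𝒞 ⟶ M ⊗ S.T j, z = 0

end defs

section proof

variable {p m : ℕ}

lemma W_val [NeZero m] (hpm : p.Coprime m) {a : ZMod m} (ha : a ≠ 0) (t : (ZMod m)ˣ) :
    H916T.W p ((t : ZMod m) * a) =
      2 * ((∑ j ∈ Finset.range (orderOf (p : ZMod m)),
        ((p : ZMod m) ^ j * ((t : ZMod m) * a)).val : ℕ) : ℤ) - orderOf (p : ZMod m) * m := by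
  unfold H916T.W
  have hu := H916T.isUnit_p hpm
  have h1 : ∀ j ∈ Finset.range (orderOf (p : ZMod m)),
      H916R2.saw ((p : ZMod m) ^ j * ((t : ZMod m) * a)) =
        2 * ((((p : ZMod m) ^ j * ((t : ZMod m) * a)).val : ℕ) : ℤ) - m := by
    intro j _
    apply H916R2.saw_of_ne_zero
    intro h
    have h2 := ((hu.pow j).mul_right_eq_zero).mp h
    exact ha ((t.isUnit.mul_right_eq_zero).mp h2)
  rw [Finset.sum_congr rfl h1, Finset.sum_sub_distrib, ← Finset.mul_sum]
  push_cast
  simp

lemma linked_iff [NeZero m] (hpm : p.Coprime m) (a b : ZMod m) :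
    H916Z.Link p a b ↔ Linked p m a b := by
  unfold H916Z.Link Linked
  constructor
  · rintro ⟨ha, hb, h | ⟨h1, h2⟩ | h⟩
    · exact ⟨ha, hb, Or.inl h⟩
    · exact ⟨ha, hb, Or.inr (Or.inl ⟨even_iff_two_dvd.mpr h1, even_iff_two_dvd.mpr h2⟩)⟩
    · refine ⟨ha, hb, Or.inr (Or.inr fun t => ?_)⟩
      have h1 := h t
      rw [W_val hpm ha, W_val hpm hb] at h1
      have h2 : ((∑ j ∈ Finset.range (orderOf (p : ZMod m)),
          ((p : ZMod m) ^ j * ((t : ZMod m) * a)).val : ℕ) : ℤ) =
        ((∑ j ∈ Finset.range (orderOf (p : ZMod m)),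
          ((p : ZMod m) ^ j * ((t : ZMod m) * b)).val : ℕ) : ℤ) := by linarith
      exact_mod_cast h2
  · rintro ⟨ha, hb, h | ⟨h1, h2⟩ | h⟩
    · exact ⟨ha, hb, Or.inl h⟩
    · exact ⟨ha, hb, Or.inr (Or.inl ⟨even_iff_two_dvd.mp h1, even_iff_two_dvd.mp h2⟩)⟩
    · refine ⟨ha, hb, Or.inr (Or.inr fun t => ?_)⟩
      rw [W_val hpm ha, W_val hpm hb, h t]

open scoped Classical in
lemma countP_quot [NeZero m] (hpm : p.Coprime m) (s : Multiset (ZMod m)) (a : ZMod m) :
    s.countP (fun b => Relation.EqvGen (H916Z.Link p) a b) =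
      s.countP (fun b => Quot.mk (Linked p m) b = Quot.mk (Linked p m) a) := by
  have hLL : H916Z.Link p = Linked p m := by
    funext x y
    exact propext (linked_iff hpm x y)
  rw [hLL]
  refine Multiset.countP_congr rfl fun b _ => ?_
  rw [← Quot.eq]
  exact propext eq_comm

lemma samePar_of [NeZero m] (hpm : p.Coprime m) {s s' : Multiset (ZMod m)}
    (h : SameParities p m s s') : SamePar p s s' := by
  classical
  intro a
  rw [countP_quot hpm, countP_quot hpm]
  exact h _

/-- the class of a residue -/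
def cl (p m : ℕ) (a : ZMod m) : Quot (Linked p m) := Quot.mk (Linked p m) a

open scoped Classical in
lemma par_eq_iff {s s' : Multiset (ZMod m)} :
    H547_as.par (cl p m) s = H547_as.par (cl p m) s' ↔ SameParities p m s s' := by
  have h1 : ∀ (s : Multiset (ZMod m)) (C : Quot (Linked p m)), H547_as.par (cl p m) s C =
      ((s.countP fun a => Quot.mk (Linked p m) a = C : ℕ) : ZMod 2) := by
    intro s C
    rw [H547_pp.countP_cast]
    rfl
  have h2 : ∀ a b : ℕ, ((a : ZMod 2) = (b : ZMod 2) ↔ (Even a ↔ Even b)) := by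
    intro a b
    rw [ZMod.natCast_eq_natCast_iff', Nat.even_iff, Nat.even_iff]
    omega
  rw [funext_iff]
  refine forall_congr' fun C => ?_
  rw [h1, h1, h2]

lemma samePar_of_par [NeZero m] (hpm : p.Coprime m) {s : Multiset (ZMod m)}
    (h : H547_as.par (cl p m) s = 0) : SamePar p s 0 := by
  rw [← H547_as.par_zero (cl p m), par_eq_iff] at h
  exact samePar_of hpm h

lemma cl_ne {a : ZMod m} (ha : a ≠ 0) : cl p m a ≠ Quot.mk _ 0 := by
  intro h0
  unfold cl at h0
  rw [Quot.eq] at h0
  have h1 : ∀ x y : ZMod m, Relation.EqvGen (Linked p m) x y → (x = 0 ↔ y = 0) := by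
    intro x y hxy
    induction hxy with
    | rel x y hxy => exact iff_of_false hxy.1 hxy.2.1
    | refl x => exact Iff.rfl
    | symm x y _ ih => exact ih.symm
    | trans x y z _ _ ih1 ih2 => exact ih1.trans ih2
  exact ha ((h1 a 0 h0).2 rfl)

variable {𝒞 : Type u} [Category.{v} 𝒞] [Preadditive 𝒞] [MonoidalCategory 𝒞]

/-- representatives of the parity vectors -/
lemma exists_reps [NeZero m] [Finite (Quot (Linked p m))] :
    ∃ S₀ : Finset (Multiset (ZMod m)), S₀.card ≤ 2 ^ (linkClasses p m - 1) - 1 ∧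
      (∀ s ∈ S₀, H547_as.GT p s) ∧
      ∀ s, H547_as.GT p s → H547_as.par (cl p m) s = 0 ∨
        ∃ s' ∈ S₀, H547_as.par (cl p m) s = H547_as.par (cl p m) s' := by
  classical
  have hQF : Fintype (Quot (Linked p m)) := Fintype.ofFinite _
  let V := H547_as.parSpace p (cl p m)
  have hV : Fintype V := Fintype.ofFinite _
  have hcard : Fintype.card V ≤ 2 ^ (linkClasses p m - 1) := by
    rw [Module.card_eq_pow_finrank (K := ZMod 2), ZMod.card]
    refine Nat.pow_le_pow_right (by norm_num) ?_
    exact H547_as.finrank_le (p := p) (cl p m) {C | C ≠ Quot.mk _ 0} fun a ha => cl_ne ha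
  let f : V → Multiset (ZMod m) := fun e => e.2.choose
  have hf : ∀ e : V, H547_as.GT p (f e) ∧ H547_as.par (cl p m) (f e) = e.1 := fun e =>
    e.2.choose_spec
  refine ⟨(univ.erase (0 : V)).image f, ?_, ?_, ?_⟩
  · refine card_image_le.trans ?_
    rw [card_erase_of_mem (mem_univ _), card_univ]
    exact Nat.sub_le_sub_right hcard 1
  · intro s hs
    obtain ⟨e, _, rfl⟩ := mem_image.mp hs
    exact (hf e).1
  · intro s hs
    by_cases h0 : H547_as.par (cl p m) s = 0
    · exact Or.inl h0
    · right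
      let e : V := ⟨H547_as.par (cl p m) s, s, hs, rfl⟩
      refine ⟨f e, mem_image.mpr ⟨e, mem_erase.mpr ⟨fun h => h0 ?_, mem_univ _⟩, rfl⟩,
        (hf e).2.symm⟩
      exact congrArg (fun x : V => x.1) h

lemma noClasses_iso {S : Shifts 𝒞} {A B : 𝒞} (e : A ≅ B) {j : ℕ} (h : NoClasses S B j) :
    NoClasses S A j := by
  intro z
  have h1 := h (z ≫ e.hom ▷ S.T j)
  have h2 : z = (z ≫ e.hom ▷ S.T j) ≫ e.inv ▷ S.T j := by
    rw [Category.assoc, ← MonoidalCategory.comp_whiskerRight]
    simp
  rw [h2, h1, Limits.zero_comp]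

lemma noClasses_one {S : Shifts 𝒞} {A : 𝒞} (e : Nonempty (A ≅ 𝟙_ 𝒞)) {j : ℕ} (hj : 0 < j) :
    NoClasses S A j := by
  obtain ⟨e⟩ := e
  refine noClasses_iso e fun z => ?_
  have h1 := S.point j hj (z ≫ (λ_ _).hom)
  have h2 : z = (z ≫ (λ_ (S.T j)).hom) ≫ (λ_ _).inv := by simp
  rw [h2, h1, Limits.zero_comp]

lemma ofType_line (L : LineSystem p 𝒞) (S : Shifts 𝒞) {s : Multiset (ZMod m)}
    (hs : IsGaussTate p m s) : OfType L S m (L.N m s) := by
  refine ⟨Unit, inferInstance, fun _ => L.N m s, fun _ => 𝟙 _, fun _ => 𝟙 _, by simp, fun _ =>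
    Or.inl ⟨s, hs, rfl⟩⟩

variable [MonoidalPreadditive 𝒞]

lemma decomp {S : Shifts 𝒞} {M : 𝒞} {ι : Type} [Fintype ι] {A : ι → 𝒞} {π : ∀ i, M ⟶ A i}
    {κ : ∀ i, A i ⟶ M} (hid : 𝟙 M = ∑ i, π i ≫ κ i) {j : ℕ} (z : 𝟙_ 𝒞 ⟶ M ⊗ S.T j) :
    z = ∑ i, (z ≫ π i ▷ S.T j) ≫ κ i ▷ S.T j := by
  conv_lhs => rw [← Category.comp_id z, ← MonoidalCategory.id_whiskerRight, hid,
    sum_whiskerRight, Preadditive.comp_sum]
  refine sum_congr rfl fun i _ => ?_
  rw [MonoidalCategory.comp_whiskerRight, Category.assoc]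

lemma noClasses_of_lines (L : LineSystem p 𝒞) (S : Shifts 𝒞) {M : 𝒞} (hM : OfType L S m M) {j : ℕ}
    (h : ∀ s, IsGaussTate p m s → NoClasses S (L.N m s) j) : NoClasses S M j := by
  obtain ⟨ι, _, A, π, κ, hid, hA⟩ := hM
  intro z
  rw [decomp hid z]
  refine sum_eq_zero fun i _ => ?_
  have h1 : z ≫ π i ▷ S.T j = 0 := by
    rcases hA i with ⟨s, hs, hAs⟩ | h0
    · exact noClasses_iso (eqToIso hAs) (h s hs) _
    · exact h0 j _
  rw [h1, Limits.zero_comp]

end proof

section products

variable {𝒞 : Type u} [Category.{v} 𝒞] [Preadditive 𝒞] [MonoidalCategory 𝒞]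
  [MonoidalPreadditive 𝒞] [BraidedCategory 𝒞] {p m : ℕ}

/-- interchange -/
lemma interchange (A B C D : 𝒞) : Nonempty ((A ⊗ B) ⊗ (C ⊗ D) ≅ (A ⊗ C) ⊗ (B ⊗ D)) :=
  ⟨α_ A B (C ⊗ D) ≪≫ (Iso.refl A ⊗ᵢ (α_ B C D).symm) ≪≫
    (Iso.refl A ⊗ᵢ ((β_ B C) ⊗ᵢ Iso.refl D)) ≪≫ (Iso.refl A ⊗ᵢ α_ C B D) ≪≫
    (α_ A C (B ⊗ D)).symm⟩

/-- the product of two classes on lines -/
lemma line_mul (L : LineSystem p 𝒞) (S : Shifts 𝒞) (hm : 0 < m) (hpm : p.Coprime m)
    {s t : Multiset (ZMod m)} (hs : H547_as.GT p s) (ht : H547_as.GT p t) (i j : ℕ) :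
    Nonempty ((L.N m s ⊗ S.T i) ⊗ (L.N m t ⊗ S.T j) ≅ L.N m (s + t) ⊗ S.T (i + j)) := by
  obtain ⟨e⟩ := L.join hm hpm hs.1 ht.1 hs.2.1 ht.2.1
  obtain ⟨f⟩ := S.add i j
  obtain ⟨g⟩ := interchange (L.N m s) (S.T i) (L.N m t) (S.T j)
  exact ⟨g ≪≫ (e.symm ⊗ᵢ f.symm)⟩

end products

/-- **Products in the higher `K`-theory of products of Fermat varieties over finite fields.** -/
theorem result (p m : ℕ) (hp : p.Prime) (hm : 0 < m) (hpm : p.Coprime m) {𝒞 : Type u}
    [Category.{v} 𝒞] [Preadditive 𝒞] [MonoidalCategory 𝒞] [MonoidalPreadditive 𝒞]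
    [BraidedCategory 𝒞] (L : LineSystem p 𝒞) (S : Shifts 𝒞) :
    -- the number of classes
    linkClasses p m ≤ 2 ^ (m.primeFactors.erase 2).card ∧
    (Odd m → linkClasses p m ≤ 2 ^ m.primeFactors.card - 1) ∧
    -- products of many classes which are of positive degree or numerically trivial are zero
    (∀ l : List (HigherClass S), l ≠ [] → linkClasses p m ≤ l.length →
      (∀ a ∈ l, OfType L S m a.M ∧ (0 < a.j ∨ NumTrivial a.z)) →
      (extProd (l.map HigherClass.toCycle)).z = 0) ∧
    -- so are the products of two classes on lines with the same parities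
    (∀ s s' : Multiset (ZMod m), IsGaussTate p m s → IsGaussTate p m s' → SameParities p m s s' →
      ∀ i j : ℕ, 0 < i → ∀ (z : 𝟙_ 𝒞 ⟶ L.N m s ⊗ S.T i) (w : 𝟙_ 𝒞 ⟶ L.N m s' ⊗ S.T j),
        (λ_ (𝟙_ 𝒞)).inv ≫ (z ⊗ₘ w) = 0) ∧
    -- in each degree Parshin's conjecture is a statement on finitely many lines
    (∃ S₀ : Finset (Multiset (ZMod m)), S₀.card ≤ 2 ^ (linkClasses p m - 1) - 1 ∧
      (∀ s ∈ S₀, IsGaussTate p m s) ∧ ∀ j : ℕ, 0 < j →
        ((∀ M, OfType L S m M → NoClasses S M j) ↔ ∀ s ∈ S₀, NoClasses S (L.N m s) j)) ∧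
    -- one class
    (linkClasses p m ≤ 1 → ∀ M, OfType L S m M → ∀ j : ℕ, 0 < j → NoClasses S M j) := by
  classical
  have hz : NeZero m := ⟨hm.ne'⟩
  have hQ : Finite (Quot (Linked p m)) := Quot.finite _
  have hQF : Fintype (Quot (Linked p m)) := Fintype.ofFinite _
  have hgt : ∀ s : Multiset (ZMod m), IsGaussTate p m s ↔ H547_as.GT p s := fun s => gt_iff hpm
  have hcl : ∀ a : ZMod m, a ≠ 0 → cl p m a ∈ {C : Quot (Linked p m) | C ≠ Quot.mk _ 0} :=
    fun a ha => cl_ne ha
  have hone : ∀ s, H547_as.GT p s → H547_as.par (cl p m) s = 0 → Nonempty (L.N m s ≅ 𝟙_ 𝒞) :=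
    fun s hs h => L.one_of_even hp hm hpm hs (samePar_of_par hpm h)
  obtain ⟨S₀, hS₀, hS₀T, H⟩ := exists_reps (p := p) (m := m)
  have hlist : ∀ j : ℕ, 0 < j → (∀ s ∈ S₀, NoClasses S (L.N m s) j) →
      ∀ M, OfType L S m M → NoClasses S M j := by
    intro j hj h M hM
    refine noClasses_of_lines L S hM fun s hs => ?_
    rcases H s ((hgt s).mp hs) with h0 | ⟨s', hs', h1⟩
    · exact noClasses_one (hone s ((hgt s).mp hs) h0) hj
    · obtain ⟨e⟩ := L.iso_of_samePar hp hm hpm ((hgt s).mp hs) (hS₀T s' hs')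
        (samePar_of hpm (par_eq_iff.mp h1))
      exact noClasses_iso e (h s' hs')
  refine ⟨H547_pp.ncard_classes_le (p := p) (Linked p m) fun a b hab => (linked_iff hpm a b).1 hab,
    fun _ => ncard_classes_lt (Linked p m) fun a b ha hb h => ⟨ha, hb, Or.inl h⟩, ?_, ?_, ⟨S₀, hS₀, fun s hs => (hgt s).mpr (hS₀T s hs), fun j hj =>
      ⟨fun h s hs => h _ (ofType_line L S ((hgt s).mpr (hS₀T s hs))), hlist j hj⟩⟩, ?_⟩
  · -- nilpotence
    intro l hl0 hn hl
    let Q : Multiset (ZMod m) → Cl 𝒞 → Prop := fun s x =>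
      ∃ (j : ℕ) (z : 𝟙_ 𝒞 ⟶ L.N m s ⊗ S.T j), (0 < j ∨ NumTrivial z) ∧
        x = Cl.mk ⟨L.N m s ⊗ S.T j, z⟩
    have hadd : ∀ s t x y, H547_as.GT p s → H547_as.GT p t → Q s x → Q t y → Q (s + t) (x * y) := by
      rintro s t _ _ hs ht ⟨i, z, hz, rfl⟩ ⟨j, w, hw, rfl⟩
      obtain ⟨e⟩ := line_mul L S hm hpm hs ht i j
      rw [mk_mul]
      refine ⟨i + j, (CycleOn.mul ⟨L.N m s ⊗ S.T i, z⟩ ⟨L.N m t ⊗ S.T j, w⟩).z ≫ e.hom, ?_, ?_⟩
      · rcases hz with hz | hz
        · left; omega
        · right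
          have h1 : (Cl.mk ⟨L.N m s ⊗ S.T i, z⟩ * Cl.mk ⟨L.N m t ⊗ S.T j, w⟩ : Cl 𝒞).IsNum :=
            isNum_mul _ (isNum_mk.mpr hz)
          rw [mk_mul] at h1
          exact (isNum_mk.mp h1).comp _
      · exact Cl.mk_eq.mpr ⟨e, rfl⟩
    have hzero : ∀ s x, H547_as.GT p s → H547_as.par (cl p m) s = 0 → Q s x → x.IsZero := by
      rintro s _ hs h ⟨j, z, hj, rfl⟩
      refine isZero_mk.mpr ?_
      change z = 0
      by_cases hj0 : 0 < j
      · exact noClasses_one (hone s hs h) hj0 z
      · have hj1 : j = 0 := by omega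
        subst hj1
        rcases hj with hj | hj
        · exact absurd hj hj0
        obtain ⟨e⟩ := hone s hs h
        obtain ⟨f⟩ := S.zero
        have h1 := hj ((e ⊗ᵢ f) ≪≫ λ_ _).hom
        have h2 : z = (z ≫ ((e ⊗ᵢ f) ≪≫ λ_ _).hom) ≫ ((e ⊗ᵢ f) ≪≫ λ_ _).inv := by
          rw [Category.assoc, Iso.hom_inv_id, Category.comp_id]
        rw [h2, h1, Limits.zero_comp]
    let C : Cl 𝒞 → Prop := fun x => ∃ s, H547_as.GT p s ∧ Q s x
    have hlen : 0 < l.length := List.length_pos_iff.mpr hl0
    have key := isZero_of_dec (P := fun a => ∃ (M : 𝒞) (j : ℕ) (z : 𝟙_ 𝒞 ⟶ M ⊗ S.T j),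
      OfType L S m M ∧ (0 < j ∨ NumTrivial z) ∧ a = ⟨M ⊗ S.T j, z⟩) (C := C) l.length
      (fun l' hl' hC => isZero_list (cl p m) {C : Quot (Linked p m) | C ≠ Quot.mk _ 0} hcl Q hadd
        hzero l' (hlen.trans_le hl') (hn.trans hl') hC) ?_ (l.map HigherClass.toCycle) []
      (by simp) ?_ (by simp)
    · rw [List.prod_nil, mul_one, ← mk_extProd] at key
      exact isZero_mk.mp key
    · rintro _ ⟨M, j, z, ⟨ι, hι, A, π, κ, hid, hA⟩, hj, rfl⟩
      refine ⟨ι, univ, fun i => A i ⊗ S.T j, fun i => κ i ▷ S.T j, fun i => z ≫ π i ▷ S.T j,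
        decomp hid z, fun i _ => ?_⟩
      rcases hA i with ⟨s, hs, hAs⟩ | h0
      · left
        refine ⟨s, (hgt s).mp hs, j, (z ≫ π i ▷ S.T j) ≫ (eqToHom hAs) ▷ S.T j, ?_, ?_⟩
        · rcases hj with hj | hj
          · exact Or.inl hj
          · exact Or.inr ((hj.comp _).comp _)
        · exact Cl.mk_eq.mpr ⟨whiskerRightIso (eqToIso hAs) (S.T j), rfl⟩
      · exact Or.inr (h0 j _)
    · intro a ha
      obtain ⟨b, hb, rfl⟩ := List.mem_map.mp ha
      exact ⟨b.M, b.j, b.z, (hl b hb).1, (hl b hb).2, rfl⟩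
  · -- two classes with the same parities
    intro s s' hs hs' h i j hi z w
    have h1 : H547_as.par (cl p m) (s + s') = 0 := by
      rw [H547_as.par_add, par_eq_iff.mpr h]
      funext C
      have : ∀ z : ZMod 2, z + z = 0 := by decide
      exact this _
    obtain ⟨e⟩ := line_mul L S hm hpm ((hgt s).mp hs) ((hgt s').mp hs') i j
    have h2 := noClasses_one (S := S)
      (hone (s + s') (H547_as.gt_add ((hgt s).mp hs) ((hgt s').mp hs')) h1)
      (show 0 < i + j by omega) (((λ_ (𝟙_ 𝒞)).inv ≫ (z ⊗ₘ w)) ≫ e.hom)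
    have h3 : (λ_ (𝟙_ 𝒞)).inv ≫ (z ⊗ₘ w) = (((λ_ (𝟙_ 𝒞)).inv ≫ (z ⊗ₘ w)) ≫ e.hom) ≫ e.inv := by
      simp
    rw [h3, h2, Limits.zero_comp]
  · -- one class
    intro hc M hM j hj
    have h1 : linkClasses p m - 1 = 0 := by omega
    rw [h1, pow_zero, Nat.sub_self, Nat.le_zero, Finset.card_eq_zero] at hS₀
    refine hlist j hj ?_ M hM
    rw [hS₀]
    intro s hs
    exact absurd hs (notMem_empty _)

end Pool.Agent.Results.MP_de59b4_ag.HigherProducts
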